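import Pool.Agent.H19.Kk

/-! The localized clique-counting inequality for uniform hypergraphs. -/

set_option maxHeartbeats 400000

namespace Pool.Agent.Results.MP_cab928_co.Localized

open Finset

/-- The real binomial coefficient `y (y-1) ... (y-k+1) / k!`. -/
noncomputable def binom (y : ℝ) (k : ℕ) : ℝ := (∏ j ∈ range k, (y - j)) / (k.factorial : ℝ)

variable {V : Type*} [Fintype V] [DecidableEq V]

/-- The number of edges containing `I`. -/
def deg (H : Finset (Finset V)) (I : Finset V) : ℕ := (H.filter fun e => I ⊆ e).card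

/-- `x(I)`: the largest real solution `y` of `d(I) = binom (y - i) (q - i)`. -/
noncomputable def xI (H : Finset (Finset V)) (q i : ℕ) (I : Finset V) : ℝ :=
  sSup {y : ℝ | (deg H I : ℝ) = binom (y - i) (q - i)}

/-- `x(T)`: the maximum of `x(I)` over the `i`-subsets `I` of `T`. -/
noncomputable def xT (H : Finset (Finset V)) (q i : ℕ) (T : Finset V) : ℝ :=
  sSup (xI H q i '' {I | I ⊆ T ∧ I.card = i})

/-- The `t`-cliques: `t`-sets all of whose `q`-subsets are edges. -/
def cliques (H : Finset (Finset V)) (q t : ℕ) : Finset (Finset V) :=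
  (powersetCard t univ).filter fun T => powersetCard q T ⊆ H

open Pool.Agent.H19.Kk

omit [Fintype V] in
/-- The supremum defining `x(I)` is the largest solution, and it is at least `q - 1`. -/
lemma xI_spec (H : Finset (Finset V)) (k i : ℕ) (I : Finset V) :
    IsGreatest {y : ℝ | (deg H I : ℝ) = binom (y - i) (i + (k + 1) - i)} (xI H (i + (k + 1)) i I) ∧
      (k : ℝ) ≤ xI H (i + (k + 1)) i I - i := by
  obtain ⟨y, h1, h2⟩ := rch_root k (deg H I)
  have e : i + (k + 1) - i = k + 1 := by omega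
  have h3 : IsGreatest {y : ℝ | (deg H I : ℝ) = binom (y - i) (i + (k + 1) - i)} (y + i) := by
    rw [e]
    refine ⟨?_, fun z hz => ?_⟩
    · change (deg H I : ℝ) = rch (y + i - i) (k + 1)
      rw [add_sub_cancel_right, h2]
    · change (deg H I : ℝ) = rch (z - i) (k + 1) at hz
      by_contra h4
      have := rch_strict h1 (show y < z - i by linarith [not_le.1 h4])
      linarith
  have h4 : xI H (i + (k + 1)) i I = y + i := h3.csSup_eq
  rw [h4]
  exact ⟨h3, by linarith⟩

lemma local_bound (H : Finset (Finset V)) (k i s : ℕ) (I : Finset V) (hI : I.card = i)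
    (T : Finset V) (hT : T ∈ cliques H (i + (k + 1)) (i + (k + 1) + s)) (hIT : I ⊆ T) :
    ((i + (k + 1) + s : ℕ) : ℝ) ≤ xI H (i + (k + 1)) i I ∧
    (((cliques H (i + (k + 1)) (i + (k + 1) + s)).filter fun S => I ⊆ S).card : ℝ) *
      ((k + 1 + s).choose (k + 1)) ≤ deg H I * rch (xI H (i + (k + 1)) i I - (i + (k + 1) : ℕ)) s := by
  obtain ⟨⟨h1, -⟩, h2⟩ := xI_spec H k i I
  have e : i + (k + 1) - i = k + 1 := by omega
  have e2 : i + (k + 1) + s - i = k + 1 + s := by omega
  rw [e] at h1
  change (deg H I : ℝ) = rch (xI H (i + (k + 1)) i I - i) (k + 1) at h1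
  set x := xI H (i + (k + 1)) i I
  have h3 := link_cl H (i + (k + 1)) (i + (k + 1) + s) I (by omega)
  rw [hI, e, e2] at h3
  have h4 : ((link H I).card : ℝ) = deg H I := by rw [card_link]; rfl
  have h5 : ((k + 1 + s : ℕ) : ℝ) ≤ x - i := by
    have h6 : T \ I ∈ cl (link H I) (k + 1) (k + 1 + s) :=
      h3 (mem_image.2 ⟨T, mem_filter.2 ⟨hT, hIT⟩, rfl⟩)
    have h7 := card_le_card (mem_filter.1 h6).2
    rw [card_powersetCard, (mem_cl.1 h6).1] at h7
    by_contra h8
    have h9 := rch_strict h2 (not_le.1 h8)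
    rw [rch_nat, ← h1, ← h4] at h9
    exact absurd (by exact_mod_cast h9) (not_lt.2 h7)
  refine ⟨by push_cast at h5 ⊢; linarith, ?_⟩
  have h6 := lovasz k (link H I) (x - i) (by rw [h4, h1]) s (by push_cast at h5; linarith)
  have h7 : (((cliques H (i + (k + 1)) (i + (k + 1) + s)).filter fun S => I ⊆ S).card : ℝ)
      ≤ (cl (link H I) (k + 1) (k + 1 + s)).card := by
    have := card_le_card h3
    rw [card_link] at this
    exact_mod_cast this
  have h8 := rch_add (x - i) (k + 1) s
  have e3 : x - i - ((k + 1 : ℕ) : ℝ) = x - ((i + (k + 1) : ℕ) : ℝ) := by push_cast; ring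
  rw [e3, ← h1] at h8
  rw [← h8]
  exact mul_le_mul_of_nonneg_right (h7.trans h6) (by positivity)

theorem result {V : Type*} [Fintype V] [DecidableEq V] (t q i : ℕ) (hi : 1 ≤ i) (hiq : i < q)
    (hqt : q ≤ t) (H : Finset (Finset V)) (hH : ∀ e ∈ H, e.card = q) :
    ∑ T ∈ cliques H q t, 1 / binom (xT H q i T - q) (t - q) ≤ (H.card : ℝ) / (t.choose q) := by
  obtain ⟨k, rfl⟩ : ∃ k, q = i + (k + 1) := ⟨q - i - 1, by omega⟩
  obtain ⟨s, rfl⟩ : ∃ s, t = i + (k + 1) + s := ⟨t - (i + (k + 1)), by omega⟩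
  have e : i + (k + 1) + s - (i + (k + 1)) = s := by omega
  rw [e]
  set K := cliques H (i + (k + 1)) (i + (k + 1) + s) with hK
  set w : Finset V → ℝ := fun I => 1 / rch (xI H (i + (k + 1)) i I - (i + (k + 1) : ℕ)) s with hw
  have h1 : ∀ T ∈ K, 1 / binom (xT H (i + (k + 1)) i T - (i + (k + 1) : ℕ)) s *
      ((i + (k + 1) + s).choose i)
      ≤ ∑ I ∈ (powersetCard i (univ : Finset V)).filter (fun I => I ⊆ T), w I := by
    intro T hT
    have h2 : (powersetCard i (univ : Finset V)).filter (fun I => I ⊆ T) = powersetCard i T := by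
      ext I
      simp [mem_powersetCard, and_comm]
    rw [h2, ← (mem_cl.1 hT).1, ← card_powersetCard, mul_comm, ← nsmul_eq_mul]
    refine card_nsmul_le_sum _ _ _ fun I hI => ?_
    obtain ⟨h3, h4⟩ := mem_powersetCard.1 hI
    have h5 := (local_bound H k i s I h4 T hT h3).1
    have h6 : xI H (i + (k + 1)) i I ≤ xT H (i + (k + 1)) i T :=
      le_csSup ((Set.toFinite _).image _).bddAbove ⟨I, ⟨h3, h4⟩, rfl⟩
    push_cast at h5
    refine one_div_le_one_div_of_le (rch_pos (by push_cast; linarith)) ?_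
    exact rch_mono (by push_cast; linarith) (by linarith)
  have h2 : ∀ I ∈ powersetCard i (univ : Finset V),
      ∑ _T ∈ K.filter (fun T => I ⊆ T), w I
        ≤ ((H.filter fun e => I ⊆ e).card : ℝ) / ((k + 1 + s).choose (k + 1)) := by
    intro I hI
    rcases (K.filter fun T => I ⊆ T).eq_empty_or_nonempty with h | ⟨T, hT⟩
    · rw [h, sum_empty]; positivity
    · obtain ⟨h3, h4⟩ := local_bound H k i s I (mem_powersetCard.1 hI).2 T (mem_filter.1 hT).1
        (mem_filter.1 hT).2
      have h5 : 0 < rch (xI H (i + (k + 1)) i I - (i + (k + 1) : ℕ)) s :=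
        rch_pos (by push_cast at h3 ⊢; linarith)
      have h6 : (0 : ℝ) < (k + 1 + s).choose (k + 1) := by
        exact_mod_cast Nat.choose_pos (by omega)
      rw [sum_const, nsmul_eq_mul, hw]
      simp only
      rw [mul_one_div, div_le_div_iff₀ h5 h6]
      exact h4
  have h3 := sum_le_sum h1
  have h4 := sum_le_sum h2
  have h5 : ∑ T ∈ K, ∑ I ∈ (powersetCard i (univ : Finset V)).filter (fun I => I ⊆ T), w I
      = ∑ I ∈ powersetCard i (univ : Finset V), ∑ _T ∈ K.filter (fun T => I ⊆ T), w I := by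
    simp only [sum_filter]
    exact sum_comm
  rw [← sum_mul, h5] at h3
  rw [← sum_div, count H (i + (k + 1)) i hH] at h4
  have h6 := Nat.choose_mul (n := i + (k + 1) + s) (k := i + (k + 1)) (s := i) (by omega)
  rw [show i + (k + 1) + s - i = k + 1 + s by omega, show i + (k + 1) - i = k + 1 by omega] at h6
  have h7 : (((i + (k + 1) + s).choose (i + (k + 1)) : ℕ) : ℝ) * ((i + (k + 1)).choose i)
      = ((i + (k + 1) + s).choose i) * ((k + 1 + s).choose (k + 1)) := by exact_mod_cast h6
  have p1 : (0 : ℝ) < (k + 1 + s).choose (k + 1) := by exact_mod_cast Nat.choose_pos (by omega)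
  have p2 : (0 : ℝ) < (i + (k + 1) + s).choose i := by exact_mod_cast Nat.choose_pos (by omega)
  have p3 : (0 : ℝ) < (i + (k + 1) + s).choose (i + (k + 1)) := by
    exact_mod_cast Nat.choose_pos (by omega)
  have h8 := h3.trans h4
  rw [← le_div_iff₀ p2] at h8
  refine h8.trans (le_of_eq ?_)
  rw [div_div, div_eq_div_iff (by positivity) p3.ne', mul_assoc, mul_comm _ ((i + (k + 1) + s).choose
    (i + (k + 1)) : ℝ), h7]
  ring

end Pool.Agent.Results.MP_cab928_co.Localized
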